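import Mathlib

/-!
A zero-dimensional (hence regular) Hausdorff s-complete topological semilattice with a continuous
injective homomorphism onto a non-closed subset of a Hausdorff topological semilattice.
-/

namespace Pool.Agent.Results.MP_3bb15c_gt.NotAbsHClosed

open Set

/-- `s`-completeness of a (topological) semilattice. -/
def SComplete (X : Type*) [TopologicalSpace X] [SemilatticeInf X] : Prop :=
  (∀ S : Set X, S.Nonempty → (∀ a ∈ S, ∀ b ∈ S, a ⊓ b ∈ S) →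
      ∃ z, IsGLB S z ∧ z ∈ closure {x | ∃ a ∈ S, a ≤ x}) ∧
    ∀ C : Set X, C.Nonempty → IsChain (· ≤ ·) C →
      ∃ z, IsLUB C z ∧ z ∈ closure {x | ∃ a ∈ C, x ≤ a}

/-- The ambient semilattice: a set of natural numbers (with union as meet) and two levels. -/
abbrev Amb := (Set ℕ)ᵒᵈ × ℕ∞ × Fin 3

/-- The set component. -/
def aB (p : Amb) : Set ℕ := OrderDual.ofDual p.1

/-- The points used. -/
def Good (p : Amb) : Prop :=
  (∀ m : ℕ, p.2.1 = m → ∀ k, m ≤ k → k ∈ aB p) ∧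
    (p.2.2 ≠ 0 → p.2.1 = ⊤ ∧ (aB p).Finite)

lemma Good.inf {p q : Amb} (hp : Good p) (hq : Good q) : Good (p ⊓ q) := by
  refine ⟨fun m hm k hk => ?_, fun h => ?_⟩
  · change p.2.1 ⊓ q.2.1 = m at hm
    change k ∈ aB p ∪ aB q
    rcases le_total p.2.1 q.2.1 with h | h
    · rw [inf_eq_left.2 h] at hm
      exact Or.inl (hp.1 m hm k hk)
    · rw [inf_eq_right.2 h] at hm
      exact Or.inr (hq.1 m hm k hk)
  · change p.2.2 ⊓ q.2.2 ≠ 0 at h
    have h1 : p.2.2 ≠ 0 := by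
      rintro h1; rw [h1] at h; exact h (inf_eq_left.2 (Fin.zero_le _))
    have h2 : q.2.2 ≠ 0 := by
      rintro h1; rw [h1] at h; exact h (inf_eq_right.2 (Fin.zero_le _))
    obtain ⟨a1, a2⟩ := hp.2 h1
    obtain ⟨b1, b2⟩ := hq.2 h2
    refine ⟨?_, a2.union b2⟩
    change p.2.1 ⊓ q.2.1 = ⊤
    rw [a1, b1, inf_top_eq]

/-- `B` and `C` agree below `N`. -/
def Agree (N : ℕ) (B C : Set ℕ) : Prop := ∀ k, k < N → (k ∈ B ↔ k ∈ C)

lemma Agree.refl (N : ℕ) (B : Set ℕ) : Agree N B B := fun _ _ => Iff.rfl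
lemma Agree.trans {N : ℕ} {B C D : Set ℕ} (h1 : Agree N B C) (h2 : Agree N C D) :
    Agree N B D := fun k hk => (h1 k hk).trans (h2 k hk)
lemma Agree.mono {M N : ℕ} (h : M ≤ N) {B C : Set ℕ} (h1 : Agree N B C) : Agree M B C :=
  fun k hk => h1 k (lt_of_lt_of_le hk h)
lemma Agree.union {N : ℕ} {B C B' C' : Set ℕ} (h1 : Agree N B C) (h2 : Agree N B' C') :
    Agree N (B ∪ B') (C ∪ C') := fun k hk => or_congr (h1 k hk) (h2 k hk)

/-! ### The target semilattice -/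

/-- The target semilattice. -/
def Y := {p : Amb // Good p}

noncomputable instance : SemilatticeInf Y := Subtype.semilatticeInf fun _ _ hp hq => Good.inf hp hq

/-- the set component -/
def Y.B (p : Y) : Set ℕ := aB p.1
/-- the first level -/
def Y.n (p : Y) : ℕ∞ := p.1.2.1
/-- the second level -/
def Y.j (p : Y) : Fin 3 := p.1.2.2

lemma Y.ext' {p q : Y} (h1 : p.B = q.B) (h2 : p.n = q.n) (h3 : p.j = q.j) : p = q :=
  Subtype.ext (Prod.ext h1 (Prod.ext h2 h3))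

lemma Y.inf_B (p q : Y) : (p ⊓ q).B = p.B ∪ q.B := rfl
lemma Y.inf_n (p q : Y) : (p ⊓ q).n = p.n ⊓ q.n := rfl
lemma Y.inf_j (p q : Y) : (p ⊓ q).j = p.j ⊓ q.j := rfl

lemma Y.good1 (p : Y) {m : ℕ} (h : p.n = m) {k : ℕ} (hk : m ≤ k) : k ∈ p.B := p.2.1 m h k hk
lemma Y.good2 (p : Y) (h : p.j ≠ 0) : p.n = ⊤ ∧ p.B.Finite := p.2.2 h

lemma Y.j_of_n (p : Y) (h : p.n ≠ ⊤) : p.j = 0 := by
  by_contra hc; exact h (p.good2 hc).1

/-- Basic neighbourhoods in `Y`. -/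
def nb (p : Y) (N : ℕ) : Set Y :=
  {q | (p.n ≠ ⊤ ∧ q = p) ∨ (p.j = 2 ∧ q = p) ∨
    (p.j = 1 ∧ q.j ≠ 0 ∧ Agree N q.B p.B ∧ p.B ⊆ q.B ∧ (q.j = 2 → q.B ≠ p.B)) ∨
    (p.n = ⊤ ∧ p.j = 0 ∧ p.B.Finite ∧ q.j = 0 ∧ Agree N q.B p.B ∧ p.B ⊆ q.B ∧
      (q.n = ⊤ → q.B.Finite) ∧ ∀ m : ℕ, q.n = m → N ≤ m) ∨
    (p.n = ⊤ ∧ p.j = 0 ∧ p.B.Infinite ∧ Agree N q.B p.B ∧ ∀ m : ℕ, q.n = m → N ≤ m)}

lemma nb_agree {p q : Y} {N : ℕ} (h : q ∈ nb p N) : Agree N q.B p.B := by
  rcases h with ⟨-, h⟩ | ⟨-, h⟩ | ⟨-, -, h, -⟩ | ⟨-, -, -, -, h, -⟩ | ⟨-, -, -, h, -⟩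
  · rw [h]; exact Agree.refl _ _
  · rw [h]; exact Agree.refl _ _
  · exact h
  · exact h
  · exact h

lemma nb_n {p q : Y} {N : ℕ} (h : q ∈ nb p N) (hp : p.n = ⊤) (m : ℕ) (hq : q.n = m) : N ≤ m := by
  rcases h with ⟨h0, h⟩ | ⟨-, h⟩ | ⟨-, h, -⟩ | ⟨-, -, -, -, -, -, -, h⟩ | ⟨-, -, -, -, h⟩
  · exact absurd hp h0
  · rw [h, hp] at hq; exact absurd hq (ENat.top_ne_natCast m)
  · rw [(q.good2 h).1] at hq; exact absurd hq (ENat.top_ne_natCast m)
  · exact h m hq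
  · exact h m hq

lemma nb_sub {p q : Y} {N : ℕ} (h : q ∈ nb p N) (hp : p.B.Finite) : p.B ⊆ q.B := by
  rcases h with ⟨-, h⟩ | ⟨-, h⟩ | ⟨-, -, -, h, -⟩ | ⟨-, -, -, -, -, h, -, -⟩ | ⟨-, -, h, -, -⟩
  · rw [h]
  · rw [h]
  · exact h
  · exact h
  · exact absurd hp h

lemma nb_eq1 {p q : Y} {N : ℕ} (h : q ∈ nb p N) (hp : p.n ≠ ⊤) : q = p := by
  rcases h with ⟨-, h⟩ | ⟨-, h⟩ | ⟨h0, -⟩ | ⟨h0, -⟩ | ⟨h0, -⟩
  · exact h
  · exact h
  · exact absurd (p.j_of_n hp) (by rw [h0]; decide)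
  · exact absurd h0 hp
  · exact absurd h0 hp

lemma nb_eq2 {p q : Y} {N : ℕ} (h : q ∈ nb p N) (hp : p.j = 2) : q = p := by
  rcases h with ⟨-, h⟩ | ⟨-, h⟩ | ⟨h0, -⟩ | ⟨-, h0, -⟩ | ⟨-, h0, -⟩
  · exact h
  · exact h
  · rw [hp] at h0; exact absurd h0 (by decide)
  · rw [hp] at h0; exact absurd h0 (by decide)
  · rw [hp] at h0; exact absurd h0 (by decide)

lemma nb_y {p q : Y} {N : ℕ} (h : q ∈ nb p N) (hp : p.j = 1) :
    q.j ≠ 0 ∧ Agree N q.B p.B ∧ p.B ⊆ q.B ∧ (q.j = 2 → q.B ≠ p.B) := by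
  rcases h with ⟨h0, h⟩ | ⟨h0, -⟩ | ⟨-, h⟩ | ⟨-, h0, -⟩ | ⟨-, h0, -⟩
  · exact absurd (p.good2 (by rw [hp]; decide)).1 h0
  · rw [hp] at h0; exact absurd h0 (by decide)
  · exact h
  · rw [hp] at h0; exact absurd h0 (by decide)
  · rw [hp] at h0; exact absurd h0 (by decide)

lemma nb_s {p q : Y} {N : ℕ} (h : q ∈ nb p N) (hp : p.n = ⊤) (hj : p.j = 0) (hB : p.B.Finite) :
    q.j = 0 ∧ (q.n = ⊤ → q.B.Finite) := by
  rcases h with ⟨h0, h⟩ | ⟨h0, -⟩ | ⟨h0, h⟩ | ⟨-, -, -, h1, -, -, h2, -⟩ | ⟨-, -, h0, -⟩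
  · exact absurd hp h0
  · rw [hj] at h0; exact absurd h0 (by decide)
  · rw [hj] at h0; exact absurd h0 (by decide)
  · exact ⟨h1, h2⟩
  · exact absurd hB h0

lemma self_mem_nb (p : Y) (N : ℕ) : p ∈ nb p N := by
  by_cases hn : p.n = ⊤
  swap
  · exact Or.inl ⟨hn, rfl⟩
  have hj : p.j = 0 ∨ p.j = 1 ∨ p.j = 2 := by
    generalize p.j = j; revert j; decide
  rcases hj with hj | hj | hj
  · by_cases hB : p.B.Finite
    · refine Or.inr (Or.inr (Or.inr (Or.inl ⟨hn, hj, hB, hj, Agree.refl _ _, subset_rfl,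
        fun _ => hB, fun m hm => ?_⟩)))
      rw [hn] at hm; exact absurd hm (ENat.top_ne_natCast m)
    · refine Or.inr (Or.inr (Or.inr (Or.inr ⟨hn, hj, hB, Agree.refl _ _, fun m hm => ?_⟩)))
      rw [hn] at hm; exact absurd hm (ENat.top_ne_natCast m)
  · refine Or.inr (Or.inr (Or.inl ⟨hj, by rw [hj]; decide, Agree.refl _ _, subset_rfl,
      fun h => ?_⟩))
    rw [hj] at h; exact absurd h (by decide)
  · exact Or.inr (Or.inl ⟨hj, rfl⟩)

lemma nb_mono {p : Y} {M N : ℕ} (h : M ≤ N) : nb p N ⊆ nb p M := by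
  intro q hq
  rcases hq with hq | hq | ⟨h1, h2, h3, h4⟩ | ⟨h1, h2, h3, h4, h5, h6, h7, h8⟩ |
    ⟨h1, h2, h3, h4, h5⟩
  · exact Or.inl hq
  · exact Or.inr (Or.inl hq)
  · exact Or.inr (Or.inr (Or.inl ⟨h1, h2, h3.mono h, h4⟩))
  · exact Or.inr (Or.inr (Or.inr (Or.inl ⟨h1, h2, h3, h4, h5.mono h, h6, h7,
      fun m hm => h.trans (h8 m hm)⟩)))
  · exact Or.inr (Or.inr (Or.inr (Or.inr ⟨h1, h2, h3, h4.mono h,
      fun m hm => h.trans (h5 m hm)⟩)))

lemma nb_nb {p q : Y} {N : ℕ} (hq : q ∈ nb p N) : nb q N ⊆ nb p N := by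
  intro r hr
  have hag := nb_agree hr
  rcases hq with ⟨h, h'⟩ | ⟨h, h'⟩ | ⟨h1, h2, h3, h4, h5⟩ | ⟨h1, h2, h3, h4, h5, h6, h7, h8⟩ |
    ⟨h1, h2, h3, h4, h5⟩
  · subst h'; exact hr
  · subst h'; exact hr
  · refine Or.inr (Or.inr (Or.inl ⟨h1, ?_, hag.trans h3, ?_, fun hrj hrB => ?_⟩))
    · have : q.j = 1 ∨ q.j = 2 := by
        revert h2; generalize q.j = j; revert j; decide
      rcases this with h | h
      · exact (nb_y hr h).1
      · rw [nb_eq2 hr h]; exact h2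
    · exact h4.trans (nb_sub hr (q.good2 h2).2)
    · have hqB : q.B = p.B :=
        subset_antisymm (by rw [← hrB]; exact nb_sub hr (q.good2 h2).2) h4
      have : q.j = 1 ∨ q.j = 2 := by
        revert h2; generalize q.j = j; revert j; decide
      rcases this with h | h
      · exact (nb_y hr h).2.2.2 hrj (hrB.trans hqB.symm)
      · exact h5 h hqB
  · refine Or.inr (Or.inr (Or.inr (Or.inl ⟨h1, h2, h3, ?_, hag.trans h5, ?_, ?_, ?_⟩)))
    · by_cases hn : q.n = ⊤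
      · exact (nb_s hr hn h4 (h7 hn)).1
      · rw [nb_eq1 hr hn]; exact h4
    · by_cases hn : q.n = ⊤
      · exact h6.trans (nb_sub hr (h7 hn))
      · rw [nb_eq1 hr hn]; exact h6
    · by_cases hn : q.n = ⊤
      · exact (nb_s hr hn h4 (h7 hn)).2
      · rw [nb_eq1 hr hn]; exact h7
    · by_cases hn : q.n = ⊤
      · exact fun m hm => nb_n hr hn m hm
      · rw [nb_eq1 hr hn]; exact h8
  · refine Or.inr (Or.inr (Or.inr (Or.inr ⟨h1, h2, h3, hag.trans h4, ?_⟩)))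
    by_cases hn : q.n = ⊤
    · exact fun m hm => nb_n hr hn m hm
    · rw [nb_eq1 hr hn]; exact h5

instance : TopologicalSpace Y where
  IsOpen U := ∀ p ∈ U, ∃ N, nb p N ⊆ U
  isOpen_univ := fun _ _ => ⟨0, subset_univ _⟩
  isOpen_inter := by
    rintro U V hU hV p ⟨hp1, hp2⟩
    obtain ⟨M, hM⟩ := hU p hp1
    obtain ⟨N, hN⟩ := hV p hp2
    exact ⟨max M N, subset_inter ((nb_mono (le_max_left _ _)).trans hM)
      ((nb_mono (le_max_right _ _)).trans hN)⟩
  isOpen_sUnion := by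
    rintro S hS p ⟨U, hU, hp⟩
    obtain ⟨N, hN⟩ := hS U hU p hp
    exact ⟨N, hN.trans (subset_sUnion_of_mem hU)⟩

lemma isOpen_nb (p : Y) (N : ℕ) : IsOpen (nb p N) := fun _ hq => ⟨N, nb_nb hq⟩

lemma exists_agree {B C : Set ℕ} (h : B ≠ C) : ∃ N, ¬ Agree N B C := by
  by_contra hc
  push Not at hc
  exact h (Set.ext fun k => hc (k + 1) k (Nat.lt_succ_self k))

lemma j_cases (j : Fin 3) : j = 0 ∨ j = 1 ∨ j = 2 := by revert j; decide

/-- Separation, up to symmetry. -/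
lemma sepY (p q : Y) (h : p ≠ q) (hn : p.n ≤ q.n) (hj : q.n = p.n → p.j ≤ q.j) :
    ∃ N, Disjoint (nb p N) (nb q N) := by
  by_cases hB : p.B = q.B
  swap
  · obtain ⟨N, hN⟩ := exists_agree hB
    refine ⟨N, Set.disjoint_left.2 fun r hr hr' => hN fun k hk => ?_⟩
    exact ((nb_agree hr) k hk).symm.trans ((nb_agree hr') k hk)
  rcases hn.lt_or_eq with hlt | heq
  · -- different first level
    have hpn : p.n ≠ ⊤ := (lt_of_lt_of_le hlt le_top).ne
    obtain ⟨m, hm⟩ := ENat.ne_top_iff_exists.1 hpn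
    refine ⟨m + 1, Set.disjoint_left.2 fun r hr hr' => ?_⟩
    rw [nb_eq1 hr hpn] at hr'
    by_cases hqn : q.n = ⊤
    · have := nb_n hr' hqn m hm.symm
      omega
    · exact h (nb_eq1 hr' hqn)
  · have hj' : p.j < q.j := lt_of_le_of_ne (hj heq.symm) fun h' => h (Y.ext' hB heq h')
    have hqj : q.j ≠ 0 := fun h' => by rw [h'] at hj'; exact absurd hj' (Fin.not_lt_zero _)
    have hfin : q.B.Finite := (q.good2 hqj).2
    have hn : p.n = ⊤ := heq.trans (q.good2 hqj).1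
    refine ⟨0, Set.disjoint_left.2 fun r hr hr' => ?_⟩
    rcases j_cases p.j with h0 | h0 | h0
    · have h1 := (nb_s hr hn h0 (by rw [hB]; exact hfin)).1
      rcases j_cases q.j with k0 | k0 | k0
      · exact hqj k0
      · exact (nb_y hr' k0).1 h1
      · rw [nb_eq2 hr' k0, k0] at h1; exact absurd h1 (by decide)
    · rcases j_cases q.j with k0 | k0 | k0
      · exact hqj k0
      · rw [h0, k0] at hj'; exact absurd hj' (by decide)
      · rw [nb_eq2 hr' k0] at hr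
        exact (nb_y hr h0).2.2.2 k0 hB.symm
    · rw [h0] at hj'
      revert hj'; generalize q.j = j; revert j; decide

instance : T2Space Y := by
  refine ⟨fun p q h => ?_⟩
  have key : ∀ p q : Y, p ≠ q → (p.n ≤ q.n) → (q.n = p.n → p.j ≤ q.j) →
      ∃ u v : Set Y, IsOpen u ∧ IsOpen v ∧ p ∈ u ∧ q ∈ v ∧ Disjoint u v := by
    intro p q h hn hj
    obtain ⟨N, hN⟩ := sepY p q h hn hj
    exact ⟨_, _, isOpen_nb p N, isOpen_nb q N, self_mem_nb p N, self_mem_nb q N, hN⟩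
  rcases lt_trichotomy p.n q.n with h1 | h1 | h1
  · exact key p q h h1.le (fun h2 => absurd h2 h1.ne')
  · rcases le_total p.j q.j with h2 | h2
    · exact key p q h h1.le (fun _ => h2)
    · obtain ⟨u, v, a, b, c, d, e⟩ := key q p h.symm h1.ge (fun _ => h2)
      exact ⟨v, u, b, a, d, c, e.symm⟩
  · obtain ⟨u, v, a, b, c, d, e⟩ := key q p h.symm h1.le (fun h2 => absurd h2 h1.ne')
    exact ⟨v, u, b, a, d, c, e.symm⟩

lemma nb_n_eq {p q : Y} {M m : ℕ} (h : q ∈ nb p M) (hm : m ≤ M) : 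
    q.n = p.n ∨ (p.n = ⊤ ∧ (m : ℕ∞) ≤ q.n) := by
  by_cases hp : p.n = ⊤
  · right
    refine ⟨hp, ?_⟩
    by_cases hq : q.n = ⊤
    · rw [hq]; exact le_top
    · obtain ⟨l, hl⟩ := ENat.ne_top_iff_exists.1 hq
      rw [← hl]
      exact_mod_cast hm.trans (nb_n h hp l hl.symm)
  · left; rw [nb_eq1 h hp]

/-- First-level case of the continuity. -/
lemma contY1 (a b : Y) {m M : ℕ} (hc : (a ⊓ b).n = m) (hM : m ≤ M) {r t : Y}
    (hr : r ∈ nb a M) (ht : t ∈ nb b M) : r ⊓ t = a ⊓ b := by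
  rw [Y.inf_n] at hc
  have hn : (r ⊓ t).n = m := by
    rw [Y.inf_n]
    rcases nb_n_eq hr hM with h1 | ⟨h1, h1'⟩
    · rcases nb_n_eq ht hM with h2 | ⟨h2, h2'⟩
      · rw [h1, h2, hc]
      · rw [h2, inf_top_eq] at hc
        rw [h1, hc, inf_eq_left.2 h2']
    · rcases nb_n_eq ht hM with h2 | ⟨h2, h2'⟩
      · rw [h1, top_inf_eq] at hc
        rw [h2, hc, inf_eq_right.2 h1']
      · rw [h1, h2, inf_top_eq] at hc
        exact absurd hc (ENat.top_ne_natCast m)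
  have hne : ((m : ℕ) : ℕ∞) ≠ ⊤ := ENat.natCast_ne_top m
  refine Y.ext' ?_ (hn.trans hc.symm) ?_
  · ext k
    by_cases hk : k < m
    · exact ((nb_agree hr).union (nb_agree ht)) k (lt_of_lt_of_le hk hM)
    · push Not at hk
      have h1 : k ∈ (r ⊓ t).B := (r ⊓ t).good1 hn hk
      have h2 : k ∈ (a ⊓ b).B := (a ⊓ b).good1 hc hk
      exact ⟨fun _ => h2, fun _ => h1⟩
  · rw [(r ⊓ t).j_of_n (by rw [hn]; exact hne), (a ⊓ b).j_of_n (by rw [Y.inf_n, hc]; exact hne)]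

lemma exists_bound {B : Set ℕ} (h : B.Finite) : ∃ N, ∀ k ∈ B, k < N := by
  obtain ⟨b, hb⟩ := h.bddAbove
  exact ⟨b + 1, fun k hk => Nat.lt_succ_of_le (hb hk)⟩

/-- One of the cases of continuity: `r` close to a `y`-level point. -/
lemma contY_ne {a b r t : Y} {M : ℕ} (ha : a.j = 1) (hb : ∀ k ∈ b.B, k < M)
    (hr : r ∈ nb a M) (hrt : (r ⊓ t).B = (a ⊓ b).B) (hrj : r.j = 2) : False := by
  obtain ⟨-, h1, h2, h3⟩ := nb_y hr ha
  have hne := h3 hrj
  have : ∃ k ∈ r.B, k ∉ a.B := by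
    by_contra hc
    push Not at hc
    exact hne (subset_antisymm hc h2)
  obtain ⟨k, hk, hka⟩ := this
  have hkM : M ≤ k := by
    by_contra hc
    exact hka ((h1 k (not_le.1 hc)).1 hk)
  have h4 : k ∈ (a ⊓ b).B := by rw [← hrt]; exact Or.inl hk
  rcases h4 with h4 | h4
  · exact hka h4
  · exact absurd (hb k h4) (not_lt.2 hkM)

lemma contY (a b : Y) (N : ℕ) : ∃ M, ∀ r ∈ nb a M, ∀ t ∈ nb b M, r ⊓ t ∈ nb (a ⊓ b) N := by
  by_cases hc : (a ⊓ b).n = ⊤
  swap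
  · obtain ⟨m, hm⟩ := ENat.ne_top_iff_exists.1 hc
    refine ⟨m, fun r hr t ht => ?_⟩
    rw [contY1 a b hm.symm le_rfl hr ht]
    exact self_mem_nb _ _
  have han : a.n = ⊤ := top_le_iff.1 (by rw [← hc]; exact inf_le_left)
  have hbn : b.n = ⊤ := top_le_iff.1 (by rw [← hc]; exact inf_le_right)
  have hnn : ∀ M, N ≤ M → ∀ r ∈ nb a M, ∀ t ∈ nb b M, ∀ m : ℕ, (r ⊓ t).n = m → N ≤ m := by
    intro M hM r hr t ht m hm
    rw [Y.inf_n] at hm
    rcases le_total r.n t.n with h | h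
    · rw [inf_eq_left.2 h] at hm; exact hM.trans (nb_n hr han m hm)
    · rw [inf_eq_right.2 h] at hm; exact hM.trans (nb_n ht hbn m hm)
  by_cases hfin : (a ⊓ b).B.Finite
  swap
  · have hj : (a ⊓ b).j = 0 := by
      by_contra h; exact hfin ((a ⊓ b).good2 h).2
    refine ⟨N, fun r hr t ht => Or.inr (Or.inr (Or.inr (Or.inr ⟨hc, hj, hfin, ?_, ?_⟩)))⟩
    · exact (nb_agree hr).union (nb_agree ht)
    · exact hnn N le_rfl r hr t ht
  have haf : a.B.Finite := hfin.subset subset_union_left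
  have hbf : b.B.Finite := hfin.subset subset_union_right
  obtain ⟨K, hK⟩ := exists_bound hfin
  have hKa : ∀ k ∈ a.B, k < K := fun k hk => hK k (Or.inl hk)
  have hKb : ∀ k ∈ b.B, k < K := fun k hk => hK k (Or.inr hk)
  refine ⟨max N K, fun r hr t ht => ?_⟩
  have hag : Agree N (r ⊓ t).B (a ⊓ b).B :=
    ((nb_agree hr).union (nb_agree ht)).mono (le_max_left _ _)
  have hsub : (a ⊓ b).B ⊆ (r ⊓ t).B := union_subset_union (nb_sub hr haf) (nb_sub ht hbf)
  -- levels of the factors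
  have key : ∀ p q : Y, ∀ M, q ∈ nb p M → p.n = ⊤ → p.B.Finite →
      (p.j = 0 → q.j = 0) ∧ (p.j ≠ 0 → q.j ≠ 0) ∧ (q.n = ⊤ → q.B.Finite) := by
    intro p q M hq hn hB
    rcases j_cases p.j with h | h | h
    · exact ⟨fun _ => (nb_s hq hn h hB).1, fun h' => absurd h h', (nb_s hq hn h hB).2⟩
    · exact ⟨fun h' => by rw [h] at h'; exact absurd h' (by decide), fun _ => (nb_y hq h).1,
        fun _ => (q.good2 (nb_y hq h).1).2⟩
    · rw [nb_eq2 hq h]
      exact ⟨id, id, fun _ => hB⟩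
  obtain ⟨r1, r2, r3⟩ := key a r _ hr han haf
  obtain ⟨t1, t2, t3⟩ := key b t _ ht hbn hbf
  rcases j_cases (a ⊓ b).j with hj | hj | hj
  · refine Or.inr (Or.inr (Or.inr (Or.inl ⟨hc, hj, hfin, ?_, hag, hsub, ?_, ?_⟩)))
    · rw [Y.inf_j] at hj ⊢
      rcases le_total a.j b.j with h | h
      · rw [inf_eq_left.2 h] at hj
        rw [r1 hj]; exact inf_eq_left.2 (Fin.zero_le _)
      · rw [inf_eq_right.2 h] at hj
        rw [t1 hj]; exact inf_eq_right.2 (Fin.zero_le _)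
    · intro hn
      have h1 : r.n = ⊤ := top_le_iff.1 (by rw [← hn]; exact inf_le_left)
      have h2 : t.n = ⊤ := top_le_iff.1 (by rw [← hn]; exact inf_le_right)
      exact (r3 h1).union (t3 h2)
    · exact hnn _ (le_max_left _ _) r hr t ht
  · have haj : a.j ≠ 0 := by
      intro h; rw [Y.inf_j, h, inf_eq_left.2 (Fin.zero_le _)] at hj; exact absurd hj (by decide)
    have hbj : b.j ≠ 0 := by
      intro h; rw [Y.inf_j, h, inf_eq_right.2 (Fin.zero_le _)] at hj; exact absurd hj (by decide)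
    refine Or.inr (Or.inr (Or.inl ⟨hj, ?_, hag, hsub, fun h2 hBB => ?_⟩))
    · have h1 := r2 haj
      have h2 := t2 hbj
      rw [Y.inf_j]
      revert h1 h2
      generalize r.j = x
      generalize t.j = y
      revert x y; decide
    · have hrj : r.j = 2 := by
        rw [Y.inf_j] at h2
        revert h2; generalize r.j = x; generalize t.j = y; revert x y; decide
      have htj : t.j = 2 := by
        rw [Y.inf_j] at h2
        revert h2; generalize r.j = x; generalize t.j = y; revert x y; decide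
      have hab : a.j = 1 ∨ b.j = 1 := by
        rw [Y.inf_j] at hj
        revert hj; generalize a.j = x; generalize b.j = y; revert x y; decide
      rcases hab with h | h
      · exact contY_ne h (fun k hk => lt_of_lt_of_le (hKb k hk) (le_max_right _ _)) hr hBB hrj
      · refine contY_ne (a := b) (b := a) (r := t) (t := r) h
          (fun k hk => lt_of_lt_of_le (hKa k hk) (le_max_right _ _)) ht ?_ htj
        rw [inf_comm, hBB, inf_comm]
  · have haj : a.j = 2 := by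
      rw [Y.inf_j] at hj
      revert hj; generalize a.j = x; generalize b.j = y; revert x y; decide
    have hbj : b.j = 2 := by
      rw [Y.inf_j] at hj
      revert hj; generalize a.j = x; generalize b.j = y; revert x y; decide
    rw [nb_eq2 hr haj, nb_eq2 ht hbj]
    exact self_mem_nb _ _

instance : ContinuousInf Y := by
  refine ⟨?_⟩
  rw [continuous_def]
  intro W hW
  rw [isOpen_prod_iff]
  intro a b hab
  obtain ⟨N, hN⟩ := hW (a ⊓ b) hab
  obtain ⟨M, hM⟩ := contY a b N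
  exact ⟨nb a M, nb b M, isOpen_nb a M, isOpen_nb b M, self_mem_nb a M, self_mem_nb b M,
    fun ⟨r, t⟩ ⟨hr, ht⟩ => hN (hM r hr t ht)⟩

/-! ### The source semilattice -/

/-- The source semilattice: the level `y` is omitted. -/
def X := {p : Amb // Good p ∧ p.2.2 ≠ 1}

noncomputable instance : SemilatticeInf X := Subtype.semilatticeInf fun p q hp hq => by
  refine ⟨Good.inf hp.1 hq.1, ?_⟩
  have h1 := hp.2
  have h2 := hq.2
  change p.2.2 ⊓ q.2.2 ≠ 1
  revert h1 h2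
  generalize p.2.2 = x
  generalize q.2.2 = y
  revert x y; decide

/-- The set component. -/
def X.B (p : X) : Set ℕ := aB p.1
/-- The first level. -/
def X.n (p : X) : ℕ∞ := p.1.2.1
/-- The second level. -/
def X.j (p : X) : Fin 3 := p.1.2.2

lemma X.ext' {p q : X} (h1 : p.B = q.B) (h2 : p.n = q.n) (h3 : p.j = q.j) : p = q :=
  Subtype.ext (Prod.ext h1 (Prod.ext h2 h3))

lemma X.le_iff {p q : X} : p ≤ q ↔ q.B ⊆ p.B ∧ p.n ≤ q.n ∧ p.j ≤ q.j := Iff.rfl

lemma X.inf_B (p q : X) : (p ⊓ q).B = p.B ∪ q.B := rfl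
lemma X.inf_n (p q : X) : (p ⊓ q).n = p.n ⊓ q.n := rfl
lemma X.inf_j (p q : X) : (p ⊓ q).j = p.j ⊓ q.j := rfl

lemma X.good1 (p : X) {m : ℕ} (h : p.n = m) {k : ℕ} (hk : m ≤ k) : k ∈ p.B := p.2.1.1 m h k hk
lemma X.good2 (p : X) (h : p.j ≠ 0) : p.n = ⊤ ∧ p.B.Finite := p.2.1.2 h

lemma X.j_of_n (p : X) (h : p.n ≠ ⊤) : p.j = 0 := by
  by_contra hc; exact h (p.good2 hc).1

lemma X.j_cases (p : X) : p.j = 0 ∨ p.j = 2 := by
  have := p.2.2
  change p.j ≠ 1 at this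
  revert this; generalize p.j = j; revert j; decide

/-- Basic neighbourhoods in `X`. -/
def nbX (p : X) (N : ℕ) : Set X :=
  {q | (p.n ≠ ⊤ ∧ q = p) ∨ (p.j = 2 ∧ q = p) ∨
    (p.n = ⊤ ∧ p.j = 0 ∧ Agree N q.B p.B ∧ (q.n = ⊤ → q.B ⊆ p.B) ∧ (q.j = 2 → p.B.Infinite) ∧
      ∀ m : ℕ, q.n = m → N ≤ m ∧ ∀ k, k < m → k ∈ q.B → k ∈ p.B)}

lemma nbX_s {p q : X} {N : ℕ} (h : q ∈ nbX p N) (hn : p.n = ⊤) (hj : p.j = 0) :
    Agree N q.B p.B ∧ (q.n = ⊤ → q.B ⊆ p.B) ∧ (q.j = 2 → p.B.Infinite) ∧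
      ∀ m : ℕ, q.n = m → N ≤ m ∧ ∀ k, k < m → k ∈ q.B → k ∈ p.B := by
  rcases h with ⟨h0, -⟩ | ⟨h0, -⟩ | ⟨-, -, h⟩
  · exact absurd hn h0
  · rw [hj] at h0; exact absurd h0 (by decide)
  · exact h

lemma nbX_eq {p q : X} {N : ℕ} (h : q ∈ nbX p N) (h' : ¬ (p.n = ⊤ ∧ p.j = 0)) : q = p := by
  rcases h with ⟨-, h⟩ | ⟨-, h⟩ | ⟨h1, h2, -⟩
  · exact h
  · exact h
  · exact absurd ⟨h1, h2⟩ h'

lemma nbX_agree {p q : X} {N : ℕ} (h : q ∈ nbX p N) : Agree N q.B p.B := by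
  rcases h with ⟨-, h⟩ | ⟨-, h⟩ | ⟨-, -, h, -⟩
  · rw [h]; exact Agree.refl _ _
  · rw [h]; exact Agree.refl _ _
  · exact h

lemma nbX_n {p q : X} {N : ℕ} (h : q ∈ nbX p N) (hp : p.n = ⊤) (m : ℕ) (hq : q.n = m) :
    N ≤ m := by
  rcases h with ⟨h0, h⟩ | ⟨-, h⟩ | ⟨-, -, -, -, -, h⟩
  · exact absurd hp h0
  · rw [h, hp] at hq; exact absurd hq (ENat.top_ne_natCast m)
  · exact (h m hq).1

lemma nbX_sub {p q : X} {N : ℕ} (h : q ∈ nbX p N) (hp : p.n = ⊤) (hq : q.n = ⊤) :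
    q.B ⊆ p.B := by
  rcases h with ⟨h0, h⟩ | ⟨-, h⟩ | ⟨-, -, -, h, -⟩
  · exact absurd hp h0
  · rw [h]
  · exact h hq

lemma nbX_sub' {p q : X} {N : ℕ} (h : q ∈ nbX p N) (hp : p.n = ⊤) {m : ℕ} (hq : q.n = m) {k : ℕ}
    (hk : k < m) (hkq : k ∈ q.B) : k ∈ p.B := by
  rcases h with ⟨h0, h⟩ | ⟨-, h⟩ | ⟨-, -, -, -, -, h⟩
  · exact absurd hp h0
  · rwa [← h]
  · exact (h m hq).2 k hk hkq

lemma self_mem_nbX (p : X) (N : ℕ) : p ∈ nbX p N := by
  by_cases hn : p.n = ⊤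
  swap
  · exact Or.inl ⟨hn, rfl⟩
  rcases p.j_cases with hj | hj
  · refine Or.inr (Or.inr ⟨hn, hj, Agree.refl _ _, fun _ => subset_rfl, fun h => ?_, fun m hm => ?_⟩)
    · rw [hj] at h; exact absurd h (by decide)
    · rw [hn] at hm; exact absurd hm (ENat.top_ne_natCast m)
  · exact Or.inr (Or.inl ⟨hj, rfl⟩)

lemma nbX_mono {p : X} {M N : ℕ} (h : M ≤ N) : nbX p N ⊆ nbX p M := by
  rintro q (hq | hq | ⟨h1, h2, h3, h4, h5, h6⟩)
  · exact Or.inl hq
  · exact Or.inr (Or.inl hq)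
  · exact Or.inr (Or.inr ⟨h1, h2, h3.mono h, h4, h5, fun m hm => ⟨h.trans (h6 m hm).1,
      (h6 m hm).2⟩⟩)

lemma nbX_nbX {p q : X} {N : ℕ} (hq : q ∈ nbX p N) : nbX q N ⊆ nbX p N := by
  intro r hr
  by_cases hqs : q.n = ⊤ ∧ q.j = 0
  swap
  · rw [nbX_eq hr hqs]; exact hq
  obtain ⟨hqn, hqj⟩ := hqs
  obtain ⟨r1, r2, r3, r4⟩ := nbX_s hr hqn hqj
  rcases hq with ⟨h, h'⟩ | ⟨h, h'⟩ | ⟨h1, h2, h3, h4, h5, h6⟩
  · subst h'; exact hr
  · subst h'; exact hr
  · refine Or.inr (Or.inr ⟨h1, h2, r1.trans h3, fun h => (r2 h).trans (h4 hqn),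
      fun h => (r3 h).mono (h4 hqn), fun m hm => ⟨(r4 m hm).1, fun k hk hkr => ?_⟩⟩)
    exact h4 hqn ((r4 m hm).2 k hk hkr)

instance : TopologicalSpace X where
  IsOpen U := ∀ p ∈ U, ∃ N, nbX p N ⊆ U
  isOpen_univ := fun _ _ => ⟨0, subset_univ _⟩
  isOpen_inter := by
    rintro U V hU hV p ⟨hp1, hp2⟩
    obtain ⟨M, hM⟩ := hU p hp1
    obtain ⟨N, hN⟩ := hV p hp2
    exact ⟨max M N, subset_inter ((nbX_mono (le_max_left _ _)).trans hM)
      ((nbX_mono (le_max_right _ _)).trans hN)⟩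
  isOpen_sUnion := by
    rintro S hS p ⟨U, hU, hp⟩
    obtain ⟨N, hN⟩ := hS U hU p hp
    exact ⟨N, hN.trans (subset_sUnion_of_mem hU)⟩

lemma isOpen_nbX (p : X) (N : ℕ) : IsOpen (nbX p N) := fun _ hq => ⟨N, nbX_nbX hq⟩

/-- Separation, up to symmetry. -/
lemma sepX (p q : X) (h : p ≠ q) (hn : p.n ≤ q.n) (hj : q.n = p.n → p.j ≤ q.j) :
    ∃ N, Disjoint (nbX p N) (nbX q N) := by
  by_cases hB : p.B = q.B
  swap
  · obtain ⟨N, hN⟩ := exists_agree hB
    refine ⟨N, Set.disjoint_left.2 fun r hr hr' => hN fun k hk => ?_⟩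
    exact ((nbX_agree hr) k hk).symm.trans ((nbX_agree hr') k hk)
  rcases hn.lt_or_eq with hlt | heq
  · have hpn : p.n ≠ ⊤ := (lt_of_lt_of_le hlt le_top).ne
    obtain ⟨m, hm⟩ := ENat.ne_top_iff_exists.1 hpn
    refine ⟨m + 1, Set.disjoint_left.2 fun r hr hr' => ?_⟩
    rw [nbX_eq hr (fun h => hpn h.1)] at hr'
    by_cases hqn : q.n = ⊤
    · have := nbX_n hr' hqn m hm.symm
      omega
    · exact h (nbX_eq hr' (fun h => hqn h.1))
  · have hj' : p.j < q.j := lt_of_le_of_ne (hj heq.symm) fun h' => h (X.ext' hB heq h')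
    have hqj : q.j ≠ 0 := fun h' => by rw [h'] at hj'; exact absurd hj' (Fin.not_lt_zero _)
    have hqj2 : q.j = 2 := q.j_cases.resolve_left hqj
    have hfin : q.B.Finite := (q.good2 hqj).2
    have hn : p.n = ⊤ := heq.trans (q.good2 hqj).1
    have hpj : p.j = 0 := by
      rcases p.j_cases with h | h
      · exact h
      · rw [h, hqj2] at hj'; exact absurd hj' (lt_irrefl _)
    refine ⟨0, Set.disjoint_left.2 fun r hr hr' => ?_⟩
    rw [nbX_eq hr' (fun h => hqj h.2)] at hr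
    exact (nbX_s hr hn hpj).2.2.1 hqj2 (by rw [hB]; exact hfin)

instance : T2Space X := by
  refine ⟨fun p q h => ?_⟩
  have key : ∀ p q : X, p ≠ q → (p.n ≤ q.n) → (q.n = p.n → p.j ≤ q.j) →
      ∃ u v : Set X, IsOpen u ∧ IsOpen v ∧ p ∈ u ∧ q ∈ v ∧ Disjoint u v := by
    intro p q h hn hj
    obtain ⟨N, hN⟩ := sepX p q h hn hj
    exact ⟨_, _, isOpen_nbX p N, isOpen_nbX q N, self_mem_nbX p N, self_mem_nbX q N, hN⟩
  rcases lt_trichotomy p.n q.n with h1 | h1 | h1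
  · exact key p q h h1.le (fun h2 => absurd h2 h1.ne')
  · rcases le_total p.j q.j with h2 | h2
    · exact key p q h h1.le (fun _ => h2)
    · obtain ⟨u, v, a, b, c, d, e⟩ := key q p h.symm h1.ge (fun _ => h2)
      exact ⟨v, u, b, a, d, c, e.symm⟩
  · obtain ⟨u, v, a, b, c, d, e⟩ := key q p h.symm h1.le (fun h2 => absurd h2 h1.ne')
    exact ⟨v, u, b, a, d, c, e.symm⟩

/-- The basic neighbourhoods of `X` are closed. -/
lemma isClosed_nbX (p : X) (N : ℕ) : IsClosed (nbX p N) := by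
  by_cases hps : p.n = ⊤ ∧ p.j = 0
  swap
  · have : nbX p N = {p} := by
      ext q
      exact ⟨fun h => nbX_eq h hps, fun h => by rw [mem_singleton_iff.1 h]; exact self_mem_nbX _ _⟩
    rw [this]; exact isClosed_singleton
  obtain ⟨hpn, hpj⟩ := hps
  rw [← isOpen_compl_iff]
  intro q hq
  by_cases hqs : q.n = ⊤ ∧ q.j = 0
  swap
  · refine ⟨0, fun r hr => ?_⟩
    rw [nbX_eq hr hqs]; exact hq
  obtain ⟨hqn, hqj⟩ := hqs
  by_cases hag : Agree N q.B p.B
  swap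
  · refine ⟨N, fun r hr hr' => hag fun k hk => ?_⟩
    exact ((nbX_agree hr) k hk).symm.trans ((nbX_agree hr') k hk)
  have hsub : ¬ q.B ⊆ p.B := by
    intro hsub
    refine hq (Or.inr (Or.inr ⟨hpn, hpj, hag, fun _ => hsub, fun h => ?_, fun m hm => ?_⟩))
    · rw [hqj] at h; exact absurd h (by decide)
    · rw [hqn] at hm; exact absurd hm (ENat.top_ne_natCast m)
  obtain ⟨i, hi, hip⟩ := not_subset.1 hsub
  refine ⟨i + 1, fun r hr hr' => ?_⟩
  have hir : i ∈ r.B := ((nbX_agree hr) i (Nat.lt_succ_self i)).2 hi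
  by_cases hrn : r.n = ⊤
  · exact hip (nbX_sub hr' hpn hrn hir)
  · obtain ⟨m, hm⟩ := ENat.ne_top_iff_exists.1 hrn
    have h1 := nbX_n hr hqn m hm.symm
    exact hip (nbX_sub' hr' hpn hm.symm (by omega) hir)

instance : RegularSpace X := by
  refine RegularSpace.of_exists_mem_nhds_isClosed_subset fun p s hs => ?_
  obtain ⟨U, hUs, hU, hpU⟩ := mem_nhds_iff.1 hs
  obtain ⟨N, hN⟩ := hU p hpU
  exact ⟨nbX p N, (isOpen_nbX p N).mem_nhds (self_mem_nbX p N), isClosed_nbX p N, hN.trans hUs⟩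

lemma nbX_n_eq {p q : X} {M m : ℕ} (h : q ∈ nbX p M) (hm : m ≤ M) :
    q.n = p.n ∨ (p.n = ⊤ ∧ (m : ℕ∞) ≤ q.n) := by
  by_cases hp : p.n = ⊤
  · right
    refine ⟨hp, ?_⟩
    by_cases hq : q.n = ⊤
    · rw [hq]; exact le_top
    · obtain ⟨l, hl⟩ := ENat.ne_top_iff_exists.1 hq
      rw [← hl]
      exact_mod_cast hm.trans (nbX_n h hp l hl.symm)
  · left; rw [nbX_eq h (fun h => hp h.1)]

/-- First-level case of the continuity. -/
lemma contX1 (a b : X) {m M : ℕ} (hc : (a ⊓ b).n = m) (hM : m ≤ M) {r t : X}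
    (hr : r ∈ nbX a M) (ht : t ∈ nbX b M) : r ⊓ t = a ⊓ b := by
  rw [X.inf_n] at hc
  have hn : (r ⊓ t).n = m := by
    rw [X.inf_n]
    rcases nbX_n_eq hr hM with h1 | ⟨h1, h1'⟩
    · rcases nbX_n_eq ht hM with h2 | ⟨h2, h2'⟩
      · rw [h1, h2, hc]
      · rw [h2, inf_top_eq] at hc
        rw [h1, hc, inf_eq_left.2 h2']
    · rcases nbX_n_eq ht hM with h2 | ⟨h2, h2'⟩
      · rw [h1, top_inf_eq] at hc
        rw [h2, hc, inf_eq_right.2 h1']
      · rw [h1, h2, inf_top_eq] at hc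
        exact absurd hc (ENat.top_ne_natCast m)
  have hne : ((m : ℕ) : ℕ∞) ≠ ⊤ := ENat.natCast_ne_top m
  refine X.ext' ?_ (hn.trans hc.symm) ?_
  · ext k
    by_cases hk : k < m
    · exact ((nbX_agree hr).union (nbX_agree ht)) k (lt_of_lt_of_le hk hM)
    · push Not at hk
      have h1 : k ∈ (r ⊓ t).B := (r ⊓ t).good1 hn hk
      have h2 : k ∈ (a ⊓ b).B := (a ⊓ b).good1 hc hk
      exact ⟨fun _ => h2, fun _ => h1⟩
  · rw [(r ⊓ t).j_of_n (by rw [hn]; exact hne), (a ⊓ b).j_of_n (by rw [X.inf_n, hc]; exact hne)]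

lemma contX (a b : X) (N : ℕ) : ∃ M, ∀ r ∈ nbX a M, ∀ t ∈ nbX b M, r ⊓ t ∈ nbX (a ⊓ b) N := by
  by_cases hc : (a ⊓ b).n = ⊤
  swap
  · obtain ⟨m, hm⟩ := ENat.ne_top_iff_exists.1 hc
    refine ⟨m, fun r hr t ht => ?_⟩
    rw [contX1 a b hm.symm le_rfl hr ht]
    exact self_mem_nbX _ _
  have han : a.n = ⊤ := top_le_iff.1 (by rw [← hc]; exact inf_le_left)
  have hbn : b.n = ⊤ := top_le_iff.1 (by rw [← hc]; exact inf_le_right)
  refine ⟨N, fun r hr t ht => ?_⟩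
  rcases (a ⊓ b).j_cases with hj | hj
  swap
  · have haj : a.j = 2 := by
      rw [X.inf_j] at hj
      revert hj; generalize a.j = x; generalize b.j = y; revert x y; decide
    have hbj : b.j = 2 := by
      rw [X.inf_j] at hj
      revert hj; generalize a.j = x; generalize b.j = y; revert x y; decide
    rw [nbX_eq hr (fun h => by rw [haj] at h; exact absurd h.2 (by decide)),
      nbX_eq ht (fun h => by rw [hbj] at h; exact absurd h.2 (by decide))]
    exact self_mem_nbX _ _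
  refine Or.inr (Or.inr ⟨hc, hj, (nbX_agree hr).union (nbX_agree ht), ?_, ?_, ?_⟩)
  · intro hn
    have h1 : r.n = ⊤ := top_le_iff.1 (by rw [← hn]; exact inf_le_left)
    have h2 : t.n = ⊤ := top_le_iff.1 (by rw [← hn]; exact inf_le_right)
    exact union_subset_union (nbX_sub hr han h1) (nbX_sub ht hbn h2)
  · intro h2
    have hrj : r.j = 2 := by
      rw [X.inf_j] at h2
      revert h2; generalize r.j = x; generalize t.j = y; revert x y; decide
    have htj : t.j = 2 := by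
      rw [X.inf_j] at h2
      revert h2; generalize r.j = x; generalize t.j = y; revert x y; decide
    have hab : a.j = 0 ∨ b.j = 0 := by
      rw [X.inf_j] at hj
      revert hj; generalize a.j = x; generalize b.j = y; revert x y; decide
    rcases hab with h | h
    · exact ((nbX_s hr han h).2.2.1 hrj).mono subset_union_left
    · exact ((nbX_s ht hbn h).2.2.1 htj).mono subset_union_right
  · intro m hm
    rw [X.inf_n] at hm
    -- each factor has level at least `m`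
    have hrm : (m : ℕ∞) ≤ r.n := by rw [← hm]; exact inf_le_left
    have htm : (m : ℕ∞) ≤ t.n := by rw [← hm]; exact inf_le_right
    have key : ∀ p q : X, q ∈ nbX p N → p.n = ⊤ → (m : ℕ∞) ≤ q.n →
        ∀ k, k < m → k ∈ q.B → k ∈ p.B := by
      intro p q hq hp hmq k hk hkq
      by_cases hqn : q.n = ⊤
      · exact nbX_sub hq hp hqn hkq
      · obtain ⟨l, hl⟩ := ENat.ne_top_iff_exists.1 hqn
        refine nbX_sub' hq hp hl.symm ?_ hkq
        rw [← hl] at hmq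
        exact lt_of_lt_of_le hk (by exact_mod_cast hmq)
    refine ⟨?_, ?_⟩
    · rcases le_total r.n t.n with h | h
      · rw [inf_eq_left.2 h] at hm; exact nbX_n hr han m hm
      · rw [inf_eq_right.2 h] at hm; exact nbX_n ht hbn m hm
    · rintro k hk (h | h)
      · exact Or.inl (key a r hr han hrm k hk h)
      · exact Or.inr (key b t ht hbn htm k hk h)

instance : ContinuousInf X := by
  refine ⟨?_⟩
  rw [continuous_def]
  intro W hW
  rw [isOpen_prod_iff]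
  intro a b hab
  obtain ⟨N, hN⟩ := hW (a ⊓ b) hab
  obtain ⟨M, hM⟩ := contX a b N
  exact ⟨nbX a M, nbX b M, isOpen_nbX a M, isOpen_nbX b M, self_mem_nbX a M, self_mem_nbX b M,
    fun ⟨r, t⟩ ⟨hr, ht⟩ => hN (hM r hr t ht)⟩

/-- The inclusion. -/
def incl (p : X) : Y := ⟨p.1, p.2.1⟩

lemma continuous_incl : Continuous incl := by
  rw [continuous_def]
  intro U hU p hp
  obtain ⟨N, hN⟩ := hU (incl p) hp
  by_cases hps : p.n = ⊤ ∧ p.j = 0
  swap
  · refine ⟨0, fun r hr => ?_⟩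
    rw [nbX_eq hr hps]; exact hp
  obtain ⟨hpn, hpj⟩ := hps
  by_cases hB : p.B.Finite
  · obtain ⟨K, hK⟩ := exists_bound hB
    refine ⟨max N K, fun q hq => hN ?_⟩
    obtain ⟨h1, h2, h3, h4⟩ := nbX_s hq hpn hpj
    refine Or.inr (Or.inr (Or.inr (Or.inl ⟨hpn, hpj, hB, ?_, h1.mono (le_max_left _ _), ?_, ?_, ?_⟩)))
    · rcases q.j_cases with h | h
      · exact h
      · exact absurd hB (h3 h)
    · intro k hk
      exact (h1 k (lt_of_lt_of_le (hK k hk) (le_max_right _ _))).2 hk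
    · intro h; exact hB.subset (h2 h)
    · intro m hm; exact (le_max_left _ _).trans (h4 m hm).1
  · refine ⟨N, fun q hq => hN ?_⟩
    obtain ⟨h1, h2, h3, h4⟩ := nbX_s hq hpn hpj
    exact Or.inr (Or.inr (Or.inr (Or.inr ⟨hpn, hpj, hB, h1, fun m hm => (h4 m hm).1⟩)))

lemma not_closed : ¬ IsClosed (range incl) := by
  intro hcl
  -- the missing point
  let y : Y := ⟨(OrderDual.toDual (∅ : Set ℕ), ⊤, 1), fun m hm => absurd hm (ENat.top_ne_natCast m),
    fun _ => ⟨rfl, finite_empty⟩⟩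
  have hy : y ∈ closure (range incl) := by
    rw [mem_closure_iff]
    intro U hU hyU
    obtain ⟨N, hN⟩ := hU y hyU
    let q : X := ⟨(OrderDual.toDual ({N} : Set ℕ), ⊤, 2),
      ⟨fun m hm => absurd hm (ENat.top_ne_natCast m), fun _ => ⟨rfl, finite_singleton N⟩⟩,
      by change (2 : Fin 3) ≠ 1; decide⟩
    refine ⟨incl q, hN ?_, q, rfl⟩
    refine Or.inr (Or.inr (Or.inl ⟨rfl, ?_, ?_, ?_, ?_⟩))
    · change (2 : Fin 3) ≠ 0; decide
    · intro k hk
      change k ∈ ({N} : Set ℕ) ↔ k ∈ (∅ : Set ℕ)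
      simp only [mem_singleton_iff, mem_empty_iff_false, iff_false]
      omega
    · exact empty_subset _
    · intro _ h
      have : N ∈ (∅ : Set ℕ) := by
        change ({N} : Set ℕ) = ∅ at h
        rw [← h]; rfl
      exact this
  rw [hcl.closure_eq] at hy
  obtain ⟨p, hp⟩ := hy
  have := p.2.2
  have h1 : p.1 = y.1 := congrArg Subtype.val hp
  rw [h1] at this
  exact this rfl

/-! ### s-completeness of the source -/

/-- An element with infinite first level and second level zero. -/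
def sPt (B : Set ℕ) : X := ⟨(OrderDual.toDual B, ⊤, 0),
  ⟨fun m hm => absurd hm (ENat.top_ne_natCast m), fun h => absurd rfl h⟩,
  by change (0 : Fin 3) ≠ 1; decide⟩

lemma sPt_B (B : Set ℕ) : (sPt B).B = B := rfl
lemma sPt_n (B : Set ℕ) : (sPt B).n = ⊤ := rfl
lemma sPt_j (B : Set ℕ) : (sPt B).j = 0 := rfl

lemma of_least {S : Set X} {z : X} (hz : z ∈ S) (h : ∀ q ∈ S, z ≤ q) :
    ∃ z, IsGLB S z ∧ z ∈ closure {x | ∃ a ∈ S, a ≤ x} :=
  ⟨z, ⟨h, fun _ hu => hu hz⟩, subset_closure ⟨z, hz, le_rfl⟩⟩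

lemma inf_part (S : Set X) (hS : S.Nonempty) (hmul : ∀ a ∈ S, ∀ b ∈ S, a ⊓ b ∈ S) :
    ∃ z, IsGLB S z ∧ z ∈ closure {x | ∃ a ∈ S, a ≤ x} := by
  by_cases h1 : ∃ p ∈ S, p.n ≠ ⊤
  · -- there is a finite first level
    have wf : WellFounded ((· < ·) : ℕ∞ → ℕ∞ → Prop) := wellFounded_lt
    obtain ⟨n0, ⟨p, hpS, rfl⟩, hmin⟩ := wf.has_min (X.n '' S) (hS.image _)
    have hmin' : ∀ q ∈ S, p.n ≤ q.n := fun q hq => not_lt.1 (hmin q.n ⟨q, hq, rfl⟩)
    have hpn : p.n ≠ ⊤ := by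
      obtain ⟨q, hq, hqn⟩ := h1
      exact fun h => hqn (top_le_iff.1 (by rw [← h]; exact hmin' q hq))
    obtain ⟨m, hm⟩ := ENat.ne_top_iff_exists.1 hpn
    have wf2 : WellFounded ((· < ·) : ℕ → ℕ → Prop) := wellFounded_lt
    obtain ⟨_, ⟨p0, ⟨hp0S, hp0n⟩, rfl⟩, hmin2⟩ :=
      wf2.has_min ((fun q : X => (q.B)ᶜ.ncard) '' {q | q ∈ S ∧ q.n = p.n}) ⟨_, p, ⟨hpS, rfl⟩, rfl⟩
    refine of_least hp0S fun q hq => ?_
    have hqn : (q ⊓ p0).n = p.n := by
      rw [X.inf_n, hp0n]; exact inf_eq_right.2 (hmin' q hq)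
    have hle := not_lt.1 (hmin2 _ ⟨q ⊓ p0, ⟨hmul q hq p0 hp0S, hqn⟩, rfl⟩)
    have hfin : (p0.B)ᶜ.Finite := by
      refine (finite_Iio m).subset fun k hk => ?_
      by_contra hkm
      exact hk (p0.good1 (hp0n.trans hm.symm) (not_lt.1 hkm))
    have hsub : ((q ⊓ p0).B)ᶜ ⊆ (p0.B)ᶜ := by
      rw [X.inf_B]; exact compl_subset_compl.2 subset_union_right
    have heq := Set.eq_of_subset_of_ncard_le hsub hle hfin
    rw [compl_inj_iff, X.inf_B] at heq
    refine X.le_iff.2 ⟨by rw [← heq]; exact subset_union_left, by rw [hp0n]; exact hmin' q hq, ?_⟩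
    rw [p0.j_of_n (by rw [hp0n]; exact hpn)]
    exact Fin.zero_le _
  push Not at h1
  let A : Set ℕ := ⋃ p ∈ S, p.B
  have hA : ∀ p ∈ S, p.B ⊆ A := fun p hp => subset_biUnion_of_mem (u := fun p : X => p.B) hp
  by_cases hfin : A.Finite
  · have wf2 : WellFounded ((· < ·) : ℕ → ℕ → Prop) := wellFounded_lt
    obtain ⟨_, ⟨p, hpS, rfl⟩, hmin⟩ :=
      wf2.has_min ((fun q : X => (A \ q.B).ncard) '' S) (hS.image _)
    have hpA : ∀ q ∈ S, q.B ⊆ p.B := by
      intro q hq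
      have hle := not_lt.1 (hmin _ ⟨q ⊓ p, hmul q hq p hpS, rfl⟩)
      have hsub : A \ (q ⊓ p).B ⊆ A \ p.B := sdiff_subset_sdiff_right (by
        rw [X.inf_B]; exact subset_union_right)
      have heq := Set.eq_of_subset_of_ncard_le hsub hle (hfin.subset sdiff_subset)
      intro k hk
      by_contra hkp
      have : k ∈ A \ p.B := ⟨hA q hq hk, hkp⟩
      rw [← heq] at this
      exact this.2 (Or.inl hk)
    have wf3 : WellFounded ((· < ·) : Fin 3 → Fin 3 → Prop) := wellFounded_lt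
    obtain ⟨_, ⟨p', hpS', rfl⟩, hmin'⟩ := wf3.has_min (X.j '' S) (hS.image _)
    refine of_least (hmul p hpS p' hpS') fun q hq => X.le_iff.2 ⟨?_, ?_, ?_⟩
    · rw [X.inf_B]; exact (hpA q hq).trans subset_union_left
    · rw [h1 q hq]; exact le_top
    · rw [X.inf_j]
      exact inf_le_right.trans (not_lt.1 (hmin' _ ⟨q, hq, rfl⟩))
  · refine ⟨sPt A, ⟨fun q hq => X.le_iff.2 ⟨hA q hq, ?_, Fin.zero_le _⟩, fun u hu => ?_⟩, ?_⟩
    · rw [h1 q hq]; exact le_top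
    · have hAu : A ⊆ u.B := iUnion₂_subset fun p hp => (X.le_iff.1 (hu hp)).1
      refine X.le_iff.2 ⟨hAu, le_top, ?_⟩
      by_contra hc
      have hj : u.j ≠ 0 := fun h => hc (by rw [h]; exact le_rfl)
      exact hfin ((u.good2 hj).2.subset hAu)
    · rw [mem_closure_iff]
      intro U hU hz
      obtain ⟨N, hN⟩ := hU _ hz
      have : ∀ n, ∃ p ∈ S, ∀ k, k < n → k ∈ A → k ∈ p.B := by
        intro n
        induction n with
        | zero => obtain ⟨p, hp⟩ := hS; exact ⟨p, hp, fun k hk => absurd hk (Nat.not_lt_zero k)⟩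
        | succ n ih =>
          obtain ⟨p, hp, hk⟩ := ih
          by_cases hn : n ∈ A
          · simp only [A, mem_iUnion] at hn
            obtain ⟨q, hq, hnq⟩ := hn
            refine ⟨p ⊓ q, hmul p hp q hq, fun k hkn hkA => ?_⟩
            rcases Nat.lt_succ_iff_lt_or_eq.1 hkn with h | h
            · exact Or.inl (hk k h hkA)
            · rw [h]; exact Or.inr hnq
          · refine ⟨p, hp, fun k hkn hkA => ?_⟩
            rcases Nat.lt_succ_iff_lt_or_eq.1 hkn with h | h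
            · exact hk k h hkA
            · rw [h] at hkA; exact absurd hkA hn
      obtain ⟨p, hp, hk⟩ := this N
      refine ⟨p, hN ?_, p, hp, le_rfl⟩
      refine Or.inr (Or.inr ⟨rfl, rfl, ?_, fun _ => hA p hp, fun _ => hfin, fun m hm => ?_⟩)
      · exact fun k hkN => ⟨fun h => hA p hp h, fun h => hk k hkN h⟩
      · rw [h1 p hp] at hm; exact absurd hm (ENat.top_ne_natCast m)

lemma sup_part (C : Set X) (hC : C.Nonempty) (hch : IsChain (· ≤ ·) C) :
    ∃ z, IsLUB C z ∧ z ∈ closure {x | ∃ a ∈ C, x ≤ a} := by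
  by_cases hg : ∃ m ∈ C, ∀ c ∈ C, c ≤ m
  · obtain ⟨m, hm, hmax⟩ := hg
    exact ⟨m, ⟨hmax, fun u hu => hu hm⟩, subset_closure ⟨m, hm, le_rfl⟩⟩
  push Not at hg
  have hg' : ∀ m ∈ C, ∃ c ∈ C, m ≤ c ∧ c ≠ m := by
    intro m hm
    obtain ⟨c, hc, hcm⟩ := hg m hm
    refine ⟨c, hc, (hch.total hm hc).resolve_right hcm, fun h => hcm h.le⟩
  have wf2 : WellFounded ((· < ·) : ℕ → ℕ → Prop) := wellFounded_lt
  have hj0 : ∀ p ∈ C, p.j = 0 := by
    intro p hp
    by_contra hpj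
    obtain ⟨_, ⟨q, ⟨hqC, hpq⟩, rfl⟩, hmin⟩ :=
      wf2.has_min ((fun q : X => (q.B).ncard) '' {q | q ∈ C ∧ p ≤ q}) ⟨_, p, ⟨hp, le_rfl⟩, rfl⟩
    have hj : ∀ r : X, p ≤ r → r.j = 2 := by
      intro r hr
      have h1 := (X.le_iff.1 hr).2.2
      refine r.j_cases.resolve_left fun h => ?_
      rw [h] at h1
      exact hpj (le_antisymm h1 (Fin.zero_le _))
    obtain ⟨c, hc, hqc, hne⟩ := hg' q hqC
    have hle := not_lt.1 (hmin _ ⟨c, ⟨hc, hpq.trans hqc⟩, rfl⟩)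
    have h2 : q.j ≠ 0 := by rw [hj q hpq]; decide
    have h3 : c.j ≠ 0 := by rw [hj c (hpq.trans hqc)]; decide
    have hB := Set.eq_of_subset_of_ncard_le (X.le_iff.1 hqc).1 hle (q.good2 h2).2
    exact hne (X.ext' hB ((c.good2 h3).1.trans (q.good2 h2).1.symm)
      ((hj c (hpq.trans hqc)).trans (hj q hpq).symm))
  have hunb : ∀ N : ℕ, ∃ c ∈ C, (N : ℕ∞) ≤ c.n := by
    intro N
    by_contra hc
    push Not at hc
    -- a decreasing measure
    let μ : X → ℕ := fun c => (N - c.n.toNat) + (c.B ∩ Iio N).ncard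
    obtain ⟨_, ⟨q, hqC, rfl⟩, hmin⟩ := wf2.has_min (μ '' C) (hC.image _)
    obtain ⟨c, hcC, hqc, hne⟩ := hg' q hqC
    have hle := not_lt.1 (hmin _ ⟨c, hcC, rfl⟩)
    obtain ⟨l1, l2, -⟩ := X.le_iff.1 hqc
    obtain ⟨a, ha⟩ := ENat.ne_top_iff_exists.1 ((hc q hqC).trans_le le_top).ne
    obtain ⟨b, hb⟩ := ENat.ne_top_iff_exists.1 ((hc c hcC).trans_le le_top).ne
    have haN := hc q hqC
    have hbN := hc c hcC
    rw [← ha] at haN
    rw [← hb] at hbN
    rw [← ha, ← hb] at l2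
    have haN' : a < N := by exact_mod_cast haN
    have hbN' : b < N := by exact_mod_cast hbN
    have hab : a ≤ b := by exact_mod_cast l2
    have h1 : (c.B ∩ Iio N).ncard ≤ (q.B ∩ Iio N).ncard :=
      Set.ncard_le_ncard (inter_subset_inter_left _ l1) ((finite_Iio N).subset inter_subset_right)
    have hμ : (N - a) + (q.B ∩ Iio N).ncard ≤ (N - b) + (c.B ∩ Iio N).ncard := by
      have : μ q ≤ μ c := hle
      simp only [μ, ← ha, ← hb] at this
      simpa using this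
    have hab' : a = b := by omega
    have hcard : (q.B ∩ Iio N).ncard ≤ (c.B ∩ Iio N).ncard := by omega
    have hB := Set.eq_of_subset_of_ncard_le (inter_subset_inter_left (Iio N) l1) hcard
      ((finite_Iio N).subset inter_subset_right)
    refine hne (X.ext' ?_ (by rw [← ha, ← hb, hab']) ((hj0 c hcC).trans (hj0 q hqC).symm))
    refine subset_antisymm l1 fun k hk => ?_
    by_cases hkN : k < N
    · have : k ∈ q.B ∩ Iio N := ⟨hk, hkN⟩
      rw [← hB] at this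
      exact this.1
    · exact c.good1 hb.symm (by omega)
  let A : Set ℕ := ⋂ p ∈ C, p.B
  have hA : ∀ p ∈ C, A ⊆ p.B := fun p hp => biInter_subset_of_mem (t := fun p : X => p.B) hp
  refine ⟨sPt A, ⟨fun p hp => X.le_iff.2 ⟨hA p hp, le_top, by rw [hj0 p hp]; exact le_rfl⟩,
    fun u hu => ?_⟩, ?_⟩
  · refine X.le_iff.2 ⟨subset_iInter₂ fun p hp => (X.le_iff.1 (hu hp)).1, ?_, Fin.zero_le _⟩
    rw [sPt_n, top_le_iff]
    by_contra hne
    obtain ⟨m, hm⟩ := ENat.ne_top_iff_exists.1 hne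
    obtain ⟨c, hc, hcm⟩ := hunb (m + 1)
    have h1 := hcm.trans (X.le_iff.1 (hu hc)).2.1
    rw [← hm] at h1
    have : m + 1 ≤ m := by exact_mod_cast h1
    omega
  · rw [mem_closure_iff]
    intro U hU hz
    obtain ⟨N, hN⟩ := hU _ hz
    have : ∀ n, ∃ p ∈ C, (N : ℕ∞) ≤ p.n ∧ ∀ k, k < n → k ∈ p.B → k ∈ A := by
      intro n
      induction n with
      | zero =>
        obtain ⟨p, hp, hpN⟩ := hunb N
        exact ⟨p, hp, hpN, fun k hk => absurd hk (Nat.not_lt_zero k)⟩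
      | succ n ih =>
        obtain ⟨p, hp, hpN, hk⟩ := ih
        by_cases hn : n ∈ A
        · refine ⟨p, hp, hpN, fun k hkn hkA => ?_⟩
          rcases Nat.lt_succ_iff_lt_or_eq.1 hkn with h | h
          · exact hk k h hkA
          · rw [h]; exact hn
        · simp only [A, mem_iInter, not_forall] at hn
          obtain ⟨q, hq, hnq⟩ := hn
          rcases hch.total hp hq with h | h
          · obtain ⟨l1, l2, -⟩ := X.le_iff.1 h
            refine ⟨q, hq, hpN.trans l2, fun k hkn hkA => ?_⟩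
            rcases Nat.lt_succ_iff_lt_or_eq.1 hkn with h | h
            · exact hk k h (l1 hkA)
            · rw [h] at hkA; exact absurd hkA hnq
          · obtain ⟨l1, -, -⟩ := X.le_iff.1 h
            refine ⟨p, hp, hpN, fun k hkn hkA => ?_⟩
            rcases Nat.lt_succ_iff_lt_or_eq.1 hkn with h | h
            · exact hk k h hkA
            · rw [h] at hkA; exact absurd (l1 hkA) hnq
    obtain ⟨p, hp, hpN, hk⟩ := this N
    let e : X := ⟨(OrderDual.toDual (A ∪ Ici N), (N : ℕ∞), 0),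
      ⟨fun m hm k hmk => Or.inr (by
        have h' : ((N : ℕ) : ℕ∞) = m := hm
        have : N = m := by exact_mod_cast h'
        rw [this]; exact hmk), fun h => absurd rfl h⟩, by change (0 : Fin 3) ≠ 1; decide⟩
    refine ⟨e, hN ?_, p, hp, X.le_iff.2 ⟨?_, hpN, ?_⟩⟩
    · refine Or.inr (Or.inr ⟨rfl, rfl, fun k hkN => ?_, fun h => ?_, fun h => ?_, fun m hm => ?_⟩)
      · change k ∈ A ∪ Ici N ↔ k ∈ A
        exact ⟨fun h => h.resolve_right (fun h' => absurd hkN (not_lt.2 h')), fun h => Or.inl h⟩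
      · exact absurd h (ENat.natCast_ne_top N)
      · exact absurd h (by change (0 : Fin 3) ≠ 2; decide)
      · have hNm : N = m := by
          have : ((N : ℕ) : ℕ∞) = m := hm
          exact_mod_cast this
        refine ⟨hNm.le, fun k hkm hke => ?_⟩
        rw [← hNm] at hkm
        change k ∈ A ∪ Ici N at hke
        exact hke.resolve_right (fun h' => absurd hkm (not_lt.2 h'))
    · intro k hkp
      change k ∈ A ∪ Ici N
      by_cases hkN : k < N
      · exact Or.inl (hk k hkN hkp)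
      · exact Or.inr (not_lt.1 hkN)
    · exact Fin.zero_le _

/-- There is an s-complete regular Hausdorff topological semilattice `X` and a continuous
homomorphism from `X` to a Hausdorff topological semigroup whose image is not closed. -/
theorem result : ∃ (X : Type) (_ : TopologicalSpace X) (_ : SemilatticeInf X)
    (Y : Type) (_ : TopologicalSpace Y) (_ : Semigroup Y) (h : X → Y),
    T2Space X ∧ RegularSpace X ∧ ContinuousInf X ∧ SComplete X ∧
    T2Space Y ∧ ContinuousMul Y ∧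
    Continuous h ∧ (∀ a b, h (a ⊓ b) = h a * h b) ∧ ¬ IsClosed (Set.range h) := by
  let sg : Semigroup Y := { mul := fun a b => a ⊓ b, mul_assoc := fun a b c => inf_assoc a b c }
  refine ⟨X, inferInstance, inferInstance, Y, inferInstance, sg, incl, inferInstance,
    inferInstance, inferInstance, ⟨inf_part, sup_part⟩, inferInstance,
    ⟨continuous_inf⟩, continuous_incl, fun a b => rfl, not_closed⟩

end Pool.Agent.Results.MP_3bb15c_gt.NotAbsHClosed
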